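import Mathlib

open Filter Topology Set MeasureTheory
open scoped symmDiff

namespace Pool.Agent.H.MP_1dc7bd_an

abbrev Y : Type := ℤ × ℕ → Bool

def sh (n : ℤ) (x : Y) : Y := fun c => x (c.1 + n, c.2)

theorem sh_sh (m n : ℤ) (x : Y) : sh m (sh n x) = sh (m + n) x := by
  funext c; simp [sh, add_assoc]

theorem sh_zero (x : Y) : sh 0 x = x := by funext c; simp [sh]

theorem sh_cont (n : ℤ) : Continuous (sh n) := continuous_pi fun _ => continuous_apply _

def XS (z : Y) : Set Y := closure (range fun n : ℤ => sh n z)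

abbrev X (z : Y) : Type := XS z

instance (z : Y) : CompactSpace (X z) := isCompact_iff_compactSpace.1 isClosed_closure.isCompact

theorem sh_mem (z : Y) (n : ℤ) {x : Y} (hx : x ∈ XS z) : sh n x ∈ XS z := by
  refine map_mem_closure (sh_cont n) hx ?_
  rintro _ ⟨m, rfl⟩
  exact ⟨n + m, (sh_sh n m z).symm⟩

def T (z : Y) : X z ≃ₜ X z where
  toFun x := ⟨sh 1 x.1, sh_mem z 1 x.2⟩
  invFun x := ⟨sh (-1) x.1, sh_mem z (-1) x.2⟩
  left_inv x := Subtype.ext (by simp [sh_sh, sh_zero])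
  right_inv x := Subtype.ext (by simp [sh_sh, sh_zero])
  continuous_toFun := ((sh_cont 1).comp continuous_subtype_val).subtype_mk _
  continuous_invFun := ((sh_cont (-1)).comp continuous_subtype_val).subtype_mk _

theorem T_iter (z : Y) (k : ℕ) (x : X z) : ((T z)^[k] x).1 = sh k x.1 := by
  induction k with
  | zero => simp [sh_zero]
  | succ k ih =>
    rw [Function.iterate_succ_apply']
    change sh 1 ((T z)^[k] x).1 = _
    rw [ih, sh_sh]; congr 1; push_cast; ring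

theorem T_symm_iter (z : Y) (k : ℕ) (x : X z) : ((T z).symm^[k] x).1 = sh (-k) x.1 := by
  induction k with
  | zero => simp [sh_zero]
  | succ k ih =>
    rw [Function.iterate_succ_apply']
    change sh (-1) ((T z).symm^[k] x).1 = _
    rw [ih, sh_sh]; congr 1; push_cast; ring

def orb (z : Y) (n : ℤ) : X z := ⟨sh n z, subset_closure ⟨n, rfl⟩⟩

theorem cyl_open (F : Finset (ℤ × ℕ)) (x : Y) : IsOpen {y : Y | ∀ c ∈ F, y c = x c} := by
  have : {y : Y | ∀ c ∈ F, y c = x c} = ⋂ c ∈ F, (fun y : Y => y c) ⁻¹' {x c} := by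
    ext y; simp
  rw [this]
  exact isOpen_biInter_finset fun c _ => (isOpen_discrete _).preimage (continuous_apply c)

theorem approx (z : Y) (x : X z) (F : Finset (ℤ × ℕ)) : ∃ n : ℤ, ∀ c ∈ F, sh n z c = x.1 c := by
  obtain ⟨_, h, n, rfl⟩ := mem_closure_iff.1 x.2 _ (cyl_open F x.1) (fun _ _ => rfl)
  exact ⟨n, h⟩

theorem nhd (z : Y) (x : X z) {U : Set (X z)} (hU : U ∈ 𝓝 x) :
    ∃ F : Finset (ℤ × ℕ), ∀ y : X z, (∀ c ∈ F, y.1 c = x.1 c) → y ∈ U := by
  obtain ⟨V, hV, hVU⟩ := (mem_nhds_subtype _ _ _).1 hU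
  rw [nhds_pi, Filter.mem_pi'] at hV
  obtain ⟨F, t, ht, hF⟩ := hV
  refine ⟨F, fun y hy => hVU (hF fun c hc => ?_)⟩
  rw [hy c hc]; exact mem_of_mem_nhds (ht c)

theorem window (z : Y) (hper : ∀ c : ℤ × ℕ, ∃ p : ℕ, 0 < p ∧ ∀ k : ℤ, sh (k * p) z c = z c)
    (F : Finset (ℤ × ℕ)) : ∃ p : ℕ, 0 < p ∧ ∀ k : ℤ, ∀ c ∈ F, sh (k * p) z c = z c := by
  choose p hp0 hp using hper
  refine ⟨∏ c ∈ F, p c, Finset.prod_pos fun c _ => hp0 c, fun k c hc => ?_⟩
  obtain ⟨q, hq⟩ := Finset.dvd_prod_of_mem p hc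
  rw [hq, ← hp c (k * q)]; congr 1; push_cast; ring

theorem minimal (z : Y) (hper : ∀ c : ℤ × ℕ, ∃ p : ℕ, 0 < p ∧ ∀ k : ℤ, sh (k * p) z c = z c)
    (x : X z) : Dense {y : X z | ∃ n : ℕ, (T z)^[n] x = y ∨ (T z).symm^[n] x = y} := by
  classical
  intro y
  rw [mem_closure_iff_nhds]
  intro U hU
  obtain ⟨F, hF⟩ := nhd z y hU
  obtain ⟨n, hn⟩ := approx z y F
  obtain ⟨p, hp0, hp⟩ := window z hper (F.image fun c => (c.1 + n, c.2))
  obtain ⟨l, hl⟩ := approx z x ((F ×ˢ Finset.range p).image fun q => (q.1.1 + q.2, q.1.2))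
  have hp' : (0 : ℤ) < p := by exact_mod_cast hp0
  obtain ⟨m, hm⟩ := Int.eq_ofNat_of_zero_le (Int.emod_nonneg (n - l) hp'.ne')
  have hm2 : m < p := by
    have := Int.emod_lt_of_pos (n - l) hp'
    rw [hm] at this; exact_mod_cast this
  refine ⟨(T z)^[m] x, hF _ fun c hc => ?_, m, Or.inl rfl⟩
  rw [T_iter, ← hn c hc]
  have h1 := hl (c.1 + m, c.2) (Finset.mem_image.2 ⟨(c, m), Finset.mem_product.2
    ⟨hc, Finset.mem_range.2 hm2⟩, rfl⟩)
  have h2 := hp (-((n - l) / p)) (c.1 + n, c.2) (Finset.mem_image.2 ⟨c, hc, rfl⟩)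
  simp only [sh] at h1 h2 ⊢
  rw [← h1, ← h2]
  congr 2
  have := Int.emod_add_mul_ediv (n - l) p
  rw [hm] at this
  linarith

theorem perfect (z : Y) (hper : ∀ c : ℤ × ℕ, ∃ p : ℕ, 0 < p ∧ ∀ k : ℤ, sh (k * p) z c = z c)
    (hap : ∀ p : ℕ, 0 < p → sh p z ≠ z) (x : X z) : (𝓝[≠] x).NeBot := by
  classical
  rw [← mem_closure_iff_nhdsWithin_neBot, mem_closure_iff_nhds]
  intro U hU
  obtain ⟨F, hF⟩ := nhd z x hU
  obtain ⟨n, hn⟩ := approx z x F
  obtain ⟨p, hp0, hp⟩ := window z hper (F.image fun c => (c.1 + n, c.2))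
  have h1 : orb z n ∈ U := hF _ hn
  have h2 : orb z (n + p) ∈ U := hF _ fun c hc => by
    rw [← hn c hc]
    have := hp 1 (c.1 + n, c.2) (Finset.mem_image.2 ⟨c, hc, rfl⟩)
    simp only [sh, orb, one_mul] at this ⊢
    rw [← this, add_assoc]
  by_cases h : orb z n = x
  · refine ⟨_, h2, fun h3 => hap p hp0 ?_⟩
    have h4 : sh (n + p) z = sh n z := congrArg Subtype.val (h3.trans h.symm)
    have h5 := congrArg (sh (-n)) h4
    rwa [sh_sh, sh_sh, neg_add_cancel, sh_zero, ← add_assoc, neg_add_cancel, zero_add] at h5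
  · exact ⟨_, h1, h⟩

theorem clopen_of_window (z : Y) (F : Finset (ℤ × ℕ)) (E : Set (X z))
    (h : ∀ x y : X z, (∀ c ∈ F, y.1 c = x.1 c) → x ∈ E → y ∈ E) : IsClopen E := by
  constructor
  · rw [← isOpen_compl_iff, isOpen_iff_mem_nhds]
    intro x hx
    refine mem_of_superset (((cyl_open F x.1).preimage continuous_subtype_val).mem_nhds
      fun _ _ => rfl) fun y hy hE => hx (h y x (fun c hc => (hy c hc).symm) hE)
  · rw [isOpen_iff_mem_nhds]
    intro x hx
    exact mem_of_superset (((cyl_open F x.1).preimage continuous_subtype_val).mem_nhds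
      fun _ _ => rfl) fun y hy => h x y hy hx

theorem window_of_clopen (z : Y) (E : Set (X z)) (hE : IsClopen E) :
    ∃ F : Finset (ℤ × ℕ), ∀ x y : X z, (∀ c ∈ F, y.1 c = x.1 c) → x ∈ E → y ∈ E := by
  obtain ⟨F, hF⟩ := (hE.1.isCompact.prod hE.compl.1.isCompact).elim_finite_subfamily_closed
    (fun c : ℤ × ℕ => {q : X z × X z | q.2.1 c = q.1.1 c})
    (fun c => isClosed_eq ((continuous_apply c).comp (continuous_subtype_val.comp continuous_snd))
      ((continuous_apply c).comp (continuous_subtype_val.comp continuous_fst))) (by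
      rw [eq_empty_iff_forall_notMem]
      rintro ⟨x, y⟩ ⟨⟨h1, h2⟩, h3⟩
      have : y = x := Subtype.ext (funext fun c => mem_iInter.1 h3 c)
      exact h2 (this ▸ h1))
  refine ⟨F, fun x y h hx => by_contra fun hy => ?_⟩
  have : (x, y) ∈ (E ×ˢ Eᶜ) ∩ ⋂ c ∈ F, {q : X z × X z | q.2.1 c = q.1.1 c} :=
    ⟨⟨hx, hy⟩, mem_iInter₂.2 h⟩
  rw [hF] at this; exact this

instance (z : Y) : MeasurableSpace (X z) := borel _
instance (z : Y) : BorelSpace (X z) := ⟨rfl⟩

theorem gen (z : Y) : (inferInstance : MeasurableSpace (X z)) =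
    MeasurableSpace.generateFrom {s : Set (X z) | IsClopen s} :=
  isTopologicalBasis_isClopen.borel_eq_generateFrom

open Classical in
noncomputable def fr (z : Y) (N : ℕ) (E : Set (X z)) : ℝ :=
  (((Finset.range N).filter fun i : ℕ => orb z i ∈ E).card : ℝ) / N

theorem T_orb (z : Y) (k : ℕ) (n : ℤ) : (T z)^[k] (orb z n) = orb z (k + n) :=
  Subtype.ext (by rw [T_iter]; exact sh_sh _ _ _)

theorem meas (z : Y) (N : ℕ → ℕ) (hN : ∀ K, 0 < N K) (hN2 : Tendsto N atTop atTop) :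
    ∃ μ : Measure (X z), IsProbabilityMeasure μ ∧ MeasurePreserving (T z) μ μ ∧
      ∃ U : Filter ℕ, U.NeBot ∧ U ≤ atTop ∧ ∀ E, IsClopen E →
        Tendsto (fun K => fr z (N K) E) U (𝓝 (μ.real E)) := by
  classical
  let ν : ℕ → Measure (X z) := fun K =>
    ((N K : ENNReal))⁻¹ • ∑ i ∈ Finset.range (N K), Measure.dirac (orb z i)
  have hν : ∀ K E, MeasurableSet E → (ν K).real E = fr z (N K) E := fun K E hE => by
    simp only [ν, Measure.real, Measure.smul_apply, Measure.finsetSum_apply,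
      Measure.dirac_apply' _ hE, smul_eq_mul, fr, indicator_apply, Pi.one_apply]
    rw [Finset.sum_boole]
    simp [div_eq_inv_mul]
  have hp : ∀ K, IsProbabilityMeasure (ν K) := fun K => ⟨by
    simp only [ν, Measure.smul_apply, Measure.finsetSum_apply, measure_univ, smul_eq_mul,
      Finset.sum_const, Finset.card_range, nsmul_eq_mul, mul_one]
    exact ENNReal.inv_mul_cancel (by simpa using (hN K).ne') (by simp)⟩
  let ν' : ℕ → ProbabilityMeasure (X z) := fun K => ⟨ν K, hp K⟩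
  let U : Ultrafilter ℕ := Ultrafilter.of atTop
  obtain ⟨μ, -, hμ⟩ := isCompact_univ.ultrafilter_le_nhds (U.map ν') (by simp)
  have key : ∀ E, IsClopen E → Tendsto (fun K => fr z (N K) E) U (𝓝 ((μ : Measure (X z)).real E)) := by
    intro E hE
    have hμ' : Tendsto ν' (U : Filter ℕ) (𝓝 μ) := hμ
    have h1 := ProbabilityMeasure.tendsto_measure_of_isClopen_of_tendsto hμ' hE
    have h2 := (NNReal.tendsto_coe.2 h1)
    refine h2.congr fun K => ?_
    rw [← hν K E hE.1.measurableSet]; rfl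
  refine ⟨μ, μ.2, ⟨(T z).continuous.measurable, ?_⟩, U, inferInstance, Ultrafilter.of_le _, key⟩
  have : IsProbabilityMeasure ((μ : Measure (X z)).map (T z)) :=
    Measure.isProbabilityMeasure_map (T z).continuous.measurable.aemeasurable
  refine ext_of_generate_finite _ (gen z) (fun s hs t ht _ => hs.inter ht) (fun E hE => ?_) (by simp)
  rw [Measure.map_apply (T z).continuous.measurable hE.1.measurableSet]
  rw [← ENNReal.toReal_eq_toReal_iff' (measure_ne_top _ _) (measure_ne_top _ _)]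
  have h1 := key _ (hE.preimage (T z).continuous)
  have h2 := key _ hE
  refine tendsto_nhds_unique h1 (h2.congr_dist ?_)
  have h3 : Tendsto (fun K => 1 / (N K : ℝ)) U (𝓝 0) :=
    (tendsto_one_div_atTop_nhds_zero_nat.comp hN2).mono_left (Ultrafilter.of_le _)
  refine squeeze_zero (fun _ => dist_nonneg) (fun K => ?_) h3
  have hK : (0 : ℝ) < N K := by exact_mod_cast hN K
  rw [Real.dist_eq, fr, fr, ← sub_div, abs_div, abs_of_pos hK]
  refine div_le_div_of_nonneg_right ?_ hK.le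
  simp only [Finset.card_filter]
  push_cast
  have h4 : ∀ i : ℕ, orb z i ∈ T z ⁻¹' E ↔ orb z ((i + 1 : ℕ) : ℤ) ∈ E := fun i => by
    have := T_orb z 1 i
    simp only [Function.iterate_one] at this
    rw [mem_preimage, this]; push_cast; rw [add_comm]
  simp only [h4]
  rw [← Finset.sum_sub_distrib,
    Finset.sum_range_sub' (fun i : ℕ => if orb z i ∈ E then (1 : ℝ) else 0)]
  split_ifs <;> simp

theorem rigid (z : Y) (μ : Measure (X z)) [IsProbabilityMeasure μ] (hT : MeasurePreserving (T z) μ μ)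
    (n : ℕ → ℕ) (h : ∀ c : ℤ × ℕ,
      Tendsto (fun k => μ {x : X z | ((T z)^[n k] x).1 c ≠ x.1 c}) atTop (𝓝 0))
    (B : Set (X z)) (hB : MeasurableSet B) :
    Tendsto (fun k => μ (((T z)^[n k] ⁻¹' B) ∆ B)) atTop (𝓝 0) := by
  rw [ENNReal.tendsto_nhds_zero]
  intro ε hε
  obtain ⟨C, hC, hC2⟩ := exists_measure_symmDiff_lt_of_generateFrom_isSetRing (μ := μ)
    (C := {s : Set (X z) | IsClopen s})
    ⟨isClopen_empty, fun _ _ hs ht => hs.union ht, fun _ _ hs ht => hs.diff ht⟩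
    ⟨{univ}, by simp, by simp [isClopen_univ], by simp⟩ (gen z) hB
    (ε := ε / 3) (ENNReal.div_pos hε.ne' (by simp))
  obtain ⟨F, hF⟩ := window_of_clopen z C hC
  have h1 := tendsto_finsetSum F fun c _ => h c
  rw [Finset.sum_const_zero, ENNReal.tendsto_nhds_zero] at h1
  filter_upwards [h1 (ε / 3) (ENNReal.div_pos hε.ne' (by simp))] with k hk
  have h2 : μ (((T z)^[n k] ⁻¹' C) ∆ C) ≤ ε / 3 := by
    refine le_trans ?_ hk
    refine le_trans (measure_mono fun x hx => ?_) (measure_biUnion_finset_le F _)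
    by_contra h3
    simp only [mem_iUnion, not_exists, mem_ofPred_eq, not_not] at h3
    rcases hx with ⟨a, b⟩ | ⟨a, b⟩
    · exact b (hF _ _ (fun c hc => (h3 c hc).symm) a)
    · exact b (hF _ _ h3 a)
  have h3 : μ (((T z)^[n k] ⁻¹' B) ∆ ((T z)^[n k] ⁻¹' C)) ≤ ε / 3 := by
    rw [← preimage_symmDiff, (hT.iterate _).measure_preimage
      (hB.symmDiff hC.1.measurableSet).nullMeasurableSet, symmDiff_comm]
    exact hC2.le
  calc _ ≤ μ (((T z)^[n k] ⁻¹' B) ∆ ((T z)^[n k] ⁻¹' C)) + μ (((T z)^[n k] ⁻¹' C) ∆ B) :=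
        measure_symmDiff_le _ _ _
    _ ≤ ε / 3 + (μ (((T z)^[n k] ⁻¹' C) ∆ C) + μ (C ∆ B)) :=
        add_le_add h3 (measure_symmDiff_le _ _ _)
    _ ≤ ε / 3 + (ε / 3 + ε / 3) := add_le_add le_rfl (add_le_add h2 hC2.le)
    _ = ε := by rw [← add_assoc, ENNReal.add_thirds]

end Pool.Agent.H.MP_1dc7bd_an
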