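import Mathlib

open Finset

namespace Pool.Agent.H.MP_1dc7bd_an

open Classical in
noncomputable def cnt (P : ℤ → Prop) (s e : ℤ) : ℤ := (((Ico s e).filter P).card : ℤ)

theorem cnt_nonneg (P : ℤ → Prop) (s e : ℤ) : 0 ≤ cnt P s e := Int.natCast_nonneg _

theorem cnt_add (P : ℤ → Prop) {s m e : ℤ} (h1 : s ≤ m) (h2 : m ≤ e) :
    cnt P s e = cnt P s m + cnt P m e := by
  classical
  unfold cnt
  rw [← Ico_union_Ico_eq_Ico h1 h2, filter_union, card_union_of_disjoint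
    (disjoint_filter_filter (Ico_disjoint_Ico_consecutive s m e))]
  push_cast; rfl

theorem cnt_mono {P Q : ℤ → Prop} {s e s' e' : ℤ} (h : ∀ u, s ≤ u → u < e → P u → s' ≤ u ∧ u < e' ∧ Q u) :
    cnt P s e ≤ cnt Q s' e' := by
  classical
  unfold cnt
  refine Int.ofNat_le.2 (card_le_card fun u hu => ?_)
  simp only [mem_filter, mem_Ico] at hu ⊢
  obtain ⟨a, b, c⟩ := h u hu.1.1 hu.1.2 hu.2
  exact ⟨⟨a, b⟩, c⟩

theorem cnt_or {P Q : ℤ → Prop} (h : ∀ u, P u → Q u → False) (s e : ℤ) :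
    cnt (fun u => P u ∨ Q u) s e = cnt P s e + cnt Q s e := by
  classical
  unfold cnt
  rw [← Nat.cast_add, ← card_union_of_disjoint (disjoint_filter.2 fun u _ a b => h u a b),
    ← filter_or]
  congr

theorem cnt_shift {P Q : ℤ → Prop} (s s' t : ℤ) (h : ∀ i, 0 ≤ i → i < t → (P (s + i) ↔ Q (s' + i))) :
    cnt P s (s + t) = cnt Q s' (s' + t) := by
  classical
  unfold cnt
  congr 1
  refine card_bij (fun u _ => u - s + s') (fun u hu => ?_) (fun a _ b _ h => by linarith)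
    (fun v hv => ?_)
  · simp only [mem_filter, mem_Ico] at hu ⊢
    have := h (u - s) (by linarith [hu.1.1]) (by linarith [hu.1.2])
    rw [add_sub_cancel, add_comm s'] at this
    exact ⟨⟨by linarith [hu.1.1], by linarith [hu.1.2]⟩, this.1 hu.2⟩
  · simp only [mem_filter, mem_Ico] at hv
    refine ⟨v - s' + s, ?_, by ring⟩
    simp only [mem_filter, mem_Ico]
    have := h (v - s') (by linarith [hv.1.1]) (by linarith [hv.1.2])
    rw [add_sub_cancel, add_comm s] at this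
    exact ⟨⟨by linarith [hv.1.1], by linarith [hv.1.2]⟩, this.2 hv.2⟩

theorem res {D : ℤ} (hD : 0 < D) (κ s w : ℤ) (hw : 0 ≤ w) :
    cnt (fun u => u ≡ κ [ZMOD D]) s (s + w * D) = w := by
  have h := Int.Ico_filter_modEq_card s (s + w * D) hD κ
  have hD' : (D : ℚ) ≠ 0 := by exact_mod_cast hD.ne'
  have e : (((s + w * D : ℤ) : ℚ) - κ) / (D : ℚ) = ((s : ℚ) - κ) / D + w := by
    push_cast; field_simp; ring
  rw [e, Int.ceil_add_intCast, add_sub_cancel_left, max_eq_left hw] at h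
  unfold cnt
  convert h

def xi (p : ℕ) (y : ℤ) : ℤ := (((y : ZMod p) ^ 2).val : ℤ)

def w (p : ℕ) (y : ℤ) : ℤ := p + xi p (y + 1) - xi p y

def lev (p : ℕ) (D κ : ℤ) (u : ℤ) : Prop :=
  u ≡ κ [ZMOD D] ∧ u % (p ^ 2 : ℤ) < w p (u / (p ^ 2 : ℤ)) * D

section
variable {p : ℕ} [hp : Fact p.Prime] {D : ℤ} (κ : ℤ) (hD : 0 < D) (hDp : 2 * D ≤ p)

theorem xi_bd (y : ℤ) : 0 ≤ xi p y ∧ xi p y < p :=
  ⟨Int.natCast_nonneg _, by unfold xi; exact_mod_cast ZMod.val_lt _⟩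

theorem xi_cast (y : ℤ) : ((xi p y : ℤ) : ZMod p) = (y : ZMod p) ^ 2 := by simp [xi]

theorem w_bd (y : ℤ) : 0 ≤ w p y ∧ w p y ≤ 2 * p := by
  unfold w; constructor <;> linarith [xi_bd (p := p) y, xi_bd (p := p) (y + 1)]

theorem ppos : (0 : ℤ) < p := by exact_mod_cast hp.out.pos

include hD hDp

theorem block (Y : ℤ) : cnt (lev p D κ) (Y * p ^ 2) ((Y + 1) * p ^ 2) = w p Y := by
  have hl : (0 : ℤ) < p ^ 2 := pow_pos ppos 2
  obtain ⟨w1, w2⟩ := w_bd (p := p) Y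
  have h3 : w p Y * D ≤ p ^ 2 := by nlinarith [ppos (p := p)]
  rw [← res hD κ (Y * p ^ 2) (w p Y) w1]
  have hdiv : ∀ u : ℤ, Y * p ^ 2 ≤ u → u < (Y + 1) * p ^ 2 →
      u / p ^ 2 = Y ∧ u % p ^ 2 = u - Y * p ^ 2 := fun u h1 h2 => by
    have : u / p ^ 2 = Y := by
      apply le_antisymm
      · exact Int.lt_add_one_iff.1 (Int.ediv_lt_of_lt_mul hl h2)
      · exact Int.le_ediv_of_mul_le hl h1
    exact ⟨this, by rw [Int.emod_def, this]; ring⟩
  apply le_antisymm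
  · refine cnt_mono fun u h1 h2 h => ⟨h1, ?_, h.1⟩
    have := h.2
    rw [(hdiv u h1 h2).1, (hdiv u h1 h2).2] at this
    linarith
  · refine cnt_mono fun u h1 h2 h => ?_
    have h2' : u < (Y + 1) * p ^ 2 := by linarith
    refine ⟨h1, h2', h, ?_⟩
    rw [(hdiv u h1 h2').1, (hdiv u h1 h2').2]
    linarith

theorem blocks (Y : ℤ) (τ : ℕ) :
    cnt (lev p D κ) (Y * p ^ 2) ((Y + τ) * p ^ 2) = τ * p + xi p (Y + τ) - xi p Y := by
  have hl : (0 : ℤ) < p ^ 2 := pow_pos ppos 2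
  induction τ with
  | zero => simp [cnt]
  | succ τ ih =>
    rw [cnt_add _ (m := (Y + τ) * p ^ 2) (by nlinarith) (by push_cast; nlinarith), ih]
    push_cast
    rw [← add_assoc, block κ hD hDp, w]; ring

theorem tail (u : ℤ) : cnt (lev p D κ) u ((u / p ^ 2 + 1) * p ^ 2) ≤ 2 * p := by
  have hl : (0 : ℤ) < p ^ 2 := pow_pos ppos 2
  refine le_trans ?_ (w_bd (p := p) (u / p ^ 2)).2
  rw [← block κ hD hDp]
  exact cnt_mono fun v h1 h2 h => ⟨(Int.ediv_mul_le u hl.ne').trans h1, h2, h⟩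

omit hDp in
theorem tail0 (u : ℤ) (hu : 2 * p * D ≤ u % p ^ 2) :
    cnt (lev p D κ) u ((u / p ^ 2 + 1) * p ^ 2) = 0 := by
  have hl : (0 : ℤ) < p ^ 2 := pow_pos ppos 2
  refine le_antisymm (le_trans (cnt_mono (Q := fun _ => True) (s' := 0) (e' := 0)
    fun v h1 h2 h => ?_) (by simp [cnt])) (cnt_nonneg _ _ _)
  exfalso
  have e : v / p ^ 2 = u / p ^ 2 := by
    apply le_antisymm
    · exact Int.lt_add_one_iff.1 (Int.ediv_lt_of_lt_mul hl h2)
    · exact Int.ediv_le_ediv hl h1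
  have h3 := h.2
  rw [Int.emod_def, e] at h3
  rw [Int.emod_def] at hu
  have := mul_le_mul_of_nonneg_right (w_bd (p := p) (u / p ^ 2)).2 hD.le
  linarith

theorem formula {u v : ℤ} (h : u ≤ v) : cnt (lev p D κ) u v =
    cnt (lev p D κ) u ((u / p ^ 2 + 1) * p ^ 2) + ((v / p ^ 2 - u / p ^ 2) * p +
      xi p (v / p ^ 2 + 1) - xi p (u / p ^ 2 + 1)) - cnt (lev p D κ) v ((v / p ^ 2 + 1) * p ^ 2) := by
  have hl : (0 : ℤ) < p ^ 2 := pow_pos ppos 2
  have h1 : u / p ^ 2 ≤ v / p ^ 2 := Int.ediv_le_ediv hl h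
  obtain ⟨τ, hτ⟩ := Int.eq_ofNat_of_zero_le (sub_nonneg.2 h1)
  have h2 := blocks κ hD hDp (u / p ^ 2 + 1) τ
  have e : u / p ^ 2 + 1 + τ = v / p ^ 2 + 1 := by linarith
  rw [e] at h2
  have h3 := cnt_add (lev p D κ) h (Int.lt_ediv_add_one_mul_self v hl).le
  have h4 := cnt_add (lev p D κ) (Int.lt_ediv_add_one_mul_self u hl).le
    (mul_le_mul_of_nonneg_right (by linarith : u / p ^ 2 + 1 ≤ v / p ^ 2 + 1) hl.le)
  rw [hτ]; linarith

theorem rough (u t : ℤ) (ht : 0 ≤ t) :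
    |p * cnt (lev p D κ) u (u + t) - t| ≤ 4 * p ^ 2 := by
  have hl : (0 : ℤ) < p ^ 2 := pow_pos ppos 2
  have h := formula κ hD hDp (by linarith : u ≤ u + t)
  have a1 := tail κ hD hDp u
  have a2 := tail κ hD hDp (u + t)
  have a3 := cnt_nonneg (lev p D κ) u ((u / p ^ 2 + 1) * p ^ 2)
  have a4 := cnt_nonneg (lev p D κ) (u + t) (((u + t) / p ^ 2 + 1) * p ^ 2)
  obtain ⟨a5, a6⟩ := xi_bd (p := p) (u / p ^ 2 + 1)
  obtain ⟨a7, a8⟩ := xi_bd (p := p) ((u + t) / p ^ 2 + 1)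
  have b1 := Int.ediv_mul_le u hl.ne'
  have b2 := Int.ediv_mul_le (u + t) hl.ne'
  have b3 := Int.lt_ediv_add_one_mul_self u hl
  have b4 := Int.lt_ediv_add_one_mul_self (u + t) hl
  have hp0 := ppos (p := p)
  rw [h, abs_le]
  constructor <;> nlinarith

omit hD hDp in
theorem cl (u0 N : ℤ) (hN : IsCoprime N p) (Zs : Finset ℤ) (Ys : Finset (ZMod p))
    (S : Finset ℕ) (hS : ∀ k ∈ S, k < p ^ 3 ∧ (u0 + k * N) % p ^ 2 ∈ Zs ∧
      (((u0 + k * N) / p ^ 2 : ℤ) : ZMod p) ∈ Ys) : S.card ≤ Zs.card * Ys.card := by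
  rw [← card_product]
  refine card_le_card_of_injOn (fun k => ((u0 + k * N) % p ^ 2, (((u0 + k * N) / p ^ 2 : ℤ) : ZMod p)))
    (fun k hk => mem_coe.2 (mem_product.2 (hS k hk).2)) fun k hk l hl h => ?_
  obtain ⟨h1, h2⟩ := Prod.ext_iff.1 h
  simp only at h1 h2
  obtain ⟨c, hc⟩ := (ZMod.intCast_eq_intCast_iff_dvd_sub _ _ _).1 h2
  have h3 : (p : ℤ) ^ 3 ∣ ((l : ℤ) - k) * N := by
    refine ⟨c, ?_⟩
    rw [Int.emod_def, Int.emod_def] at h1
    linear_combination (p : ℤ) ^ 2 * hc - h1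
  have h4 := (hN.symm.pow_left (m := 3)).dvd_of_dvd_mul_right h3
  have h5 : ((k : ℤ)) < p ^ 3 := by exact_mod_cast (hS k hk).1
  have h6 : ((l : ℤ)) < p ^ 3 := by exact_mod_cast (hS l hl).1
  have h7 := Int.eq_zero_of_abs_lt_dvd h4 (abs_lt.2 ⟨by omega, by omega⟩)
  omega

theorem prog (hp2 : p ≠ 2) (b n : ℤ) (hb : 0 < b) (hn1 : (p : ℤ) ^ 2 ≤ n)
    (hn2 : 2 * n < (p - 1) * p ^ 2) (C : ℤ → ℤ)
    (hC : ∀ t1 t2, 0 ≤ t1 → t1 ≤ t2 → t2 - t1 - 1 ≤ 2 * (C t2 - C t1)) (u0 N : ℤ) (hN : IsCoprime N p)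
    (S : Finset ℕ) (hS : ∀ k ∈ S, k < p ^ 3 ∧ ∃ t, n ≤ t ∧ t ≤ 2 * n ∧ b ∣ t ∧
      C t + cnt (lev p D κ) (u0 + k * N) (u0 + k * N + t) = n) :
    (S.card : ℤ) ≤ (4 * D + 18) * p ^ 2 + p ^ 2 * (2 * (17 * p / b + 1)) := by
  classical
  have hp0 := ppos (p := p)
  have hl : (0 : ℤ) < p ^ 2 := pow_pos ppos 2
  have hq : 0 ≤ 17 * (p : ℤ) / b := Int.ediv_nonneg (by linarith) hb.le
  rcases S.eq_empty_or_nonempty with rfl | hne
  · simp only [card_empty, Nat.cast_zero]; positivity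
  obtain ⟨t0, ⟨h01, h02, h03⟩, hmin⟩ := Int.exists_least_of_bdd
    (P := fun t => n ≤ t ∧ t ≤ 2 * n ∧ |p * (n - C t) - t| ≤ 4 * p ^ 2) ⟨n, fun t h => h.1⟩ (by
      obtain ⟨k, hk⟩ := hne
      obtain ⟨t, a1, a2, -, a4⟩ := (hS k hk).2
      refine ⟨t, a1, a2, ?_⟩
      rw [← a4, add_sub_cancel_left]
      exact rough κ hD hDp _ _ (by linarith))
  let Ts := (Ico t0 (t0 + (17 * p / b + 1) * b)).filter fun t => t ≡ 0 [ZMOD b]
  have hTs : (Ts.card : ℤ) = 17 * p / b + 1 := by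
    have := res hb 0 t0 (17 * p / b + 1) (by linarith)
    unfold cnt at this
    convert this
  let g : ℤ × ℤ → ZMod p := fun q =>
    (((n - C q.1 : ℤ) : ZMod p) / (q.2 : ZMod p) - q.2 - 2) / 2
  let Ys := (Ts ×ˢ ({t0 / p ^ 2, t0 / p ^ 2 + 1} : Finset ℤ)).image g
  have hYs : (Ys.card : ℤ) ≤ 2 * (17 * p / b + 1) := by
    have h1 : Ys.card ≤ Ts.card * 2 :=
      card_image_le.trans (by rw [card_product]; exact Nat.mul_le_mul_left _ card_le_two)
    have h2 : (Ys.card : ℤ) ≤ Ts.card * 2 := by exact_mod_cast h1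
    linarith
  let Z1 : Finset ℤ := Ico 0 (2 * p * D)
  let Z2 : Finset ℤ := Ico 0 (2 * p * D) ∪ Ico (p ^ 2 - 17 * p) (p ^ 2)
  let S1 := S.filter fun k : ℕ => (u0 + k * N) % p ^ 2 ∈ Z1
  let S2 := S.filter fun k : ℕ => (u0 + t0 + k * N) % p ^ 2 ∈ Z2
  let S3 := S.filter fun k : ℕ => (((u0 + k * N) / p ^ 2 : ℤ) : ZMod p) ∈ Ys
  have c1 := cl u0 N hN Z1 univ S1 fun k hk =>
    ⟨(hS k (mem_filter.1 hk).1).1, (mem_filter.1 hk).2, mem_univ _⟩
  have c2 := cl (u0 + t0) N hN Z2 univ S2 fun k hk =>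
    ⟨(hS k (mem_filter.1 hk).1).1, (mem_filter.1 hk).2, mem_univ _⟩
  have c3 := cl u0 N hN (Ico 0 (p ^ 2)) Ys S3 fun k hk =>
    ⟨(hS k (mem_filter.1 hk).1).1, mem_Ico.2 ⟨Int.emod_nonneg _ hl.ne', Int.emod_lt_of_pos _ hl⟩,
      (mem_filter.1 hk).2⟩
  have hsub : S ⊆ S1 ∪ S2 ∪ S3 := by
    intro k hk
    by_contra hcon
    simp only [S1, S2, S3, Z1, Z2, mem_union, mem_filter, hk, true_and, not_or, mem_Ico, not_and,
      not_lt] at hcon
    obtain ⟨⟨e1, e2, e3⟩, e4⟩ := hcon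
    apply e4
    obtain ⟨t, a1, a2, a3, a4⟩ := (hS k hk).2
    set u := u0 + k * N with hu
    have e : u0 + t0 + k * N = u + t0 := by rw [hu]; ring
    rw [e] at e2 e3
    replace e1 := e1 (Int.emod_nonneg _ hl.ne')
    replace e2 := e2 (Int.emod_nonneg _ hl.ne')
    have e5 : (u + t0) % p ^ 2 < p ^ 2 - 17 * p := by
      by_contra h
      exact absurd (e3 (not_lt.1 h)) (not_le.2 (Int.emod_lt_of_pos _ hl))
    have r1 : |p * (n - C t) - t| ≤ 4 * p ^ 2 := by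
      rw [← a4, add_sub_cancel_left]
      exact rough κ hD hDp _ _ (by linarith)
    have r2 := hmin t ⟨a1, a2, r1⟩
    have r3 : t - t0 < 17 * p := by
      have := hC t0 t (by linarith) r2
      rw [abs_le] at r1 h03
      by_contra h
      have h2 : (2 : ℤ) ≤ p := by exact_mod_cast hp.out.two_le
      nlinarith [r1.1, h03.2]
    have d1 : (u + t) / p ^ 2 = (u + t0) / p ^ 2 := by
      apply le_antisymm
      · refine Int.lt_add_one_iff.1 (Int.ediv_lt_of_lt_mul hl ?_)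
        rw [Int.emod_def] at e5; linarith
      · exact Int.ediv_le_ediv hl (by linarith)
    have d2 : 2 * p * D ≤ (u + t) % p ^ 2 := by
      rw [Int.emod_def] at e2 ⊢; rw [d1]; linarith
    have f := formula κ hD hDp (by linarith : u ≤ u + t)
    rw [tail0 κ hD u e1, tail0 κ hD (u + t) d2, d1] at f
    set τ := (u + t0) / p ^ 2 - u / p ^ 2 with hτ
    have b1 := Int.ediv_mul_le u hl.ne'
    have b2 := Int.ediv_mul_le (u + t0) hl.ne'
    have b3 := Int.lt_ediv_add_one_mul_self u hl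
    have b4 := Int.lt_ediv_add_one_mul_self (u + t0) hl
    have b5 := Int.ediv_mul_le t0 hl.ne'
    have b6 := Int.lt_ediv_add_one_mul_self t0 hl
    have t1 : t0 / p ^ 2 ≤ τ := by
      refine Int.lt_add_one_iff.1 (lt_of_mul_lt_mul_right (a := (p : ℤ) ^ 2) ?_ hl.le)
      rw [hτ]; linarith
    have t2 : τ ≤ t0 / p ^ 2 + 1 := by
      refine Int.lt_add_one_iff.1 (lt_of_mul_lt_mul_right (a := (p : ℤ) ^ 2) ?_ hl.le)
      rw [hτ]; linarith
    have t3 : 1 ≤ t0 / p ^ 2 := Int.le_ediv_of_mul_le hl (by linarith)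
    have t4 : t0 / p ^ 2 < p - 1 := Int.ediv_lt_of_lt_mul hl (by linarith)
    have t5 : (τ : ZMod p) ≠ 0 := fun h => by
      have := Int.le_of_dvd (by linarith) ((ZMod.intCast_zmod_eq_zero_iff_dvd _ _).1 h)
      linarith
    have t6 : (2 : ZMod p) ≠ 0 := fun h => by
      have : ((2 : ℕ) : ZMod p) = 0 := by exact_mod_cast h
      exact hp2 ((Nat.prime_dvd_prime_iff_eq hp.out Nat.prime_two).1
        ((ZMod.natCast_eq_zero_iff _ _).1 this))
    refine mem_image.2 ⟨(t, τ), mem_product.2 ⟨mem_filter.2 ⟨mem_Ico.2 ⟨r2, ?_⟩,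
      (Int.modEq_zero_iff_dvd).2 a3⟩, ?_⟩, ?_⟩
    · have := Int.lt_ediv_add_one_mul_self (17 * (p : ℤ)) hb
      simp only; linarith
    · simp only [mem_insert, mem_singleton]; omega
    · have h1 : n - C t = τ * p + xi p (u / p ^ 2 + τ + 1) - xi p (u / p ^ 2 + 1) := by
        rw [hτ, add_sub_cancel]; linarith
      simp only [g]
      rw [h1]
      simp only [Int.cast_sub, Int.cast_add, Int.cast_mul, xi_cast, Int.cast_natCast,
        ZMod.natCast_self, Int.cast_one]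
      field_simp
      ring
  have z1 : (Z1.card : ℤ) = 2 * p * D := by
    simp only [Z1, Int.card_Ico, sub_zero]; exact Int.toNat_of_nonneg (by positivity)
  have z2 : (Z2.card : ℤ) ≤ 2 * p * D + 17 * p := by
    have h0 := card_union_le Z1 (Ico ((p : ℤ) ^ 2 - 17 * p) ((p : ℤ) ^ 2))
    have h1 : (Z2.card : ℤ) ≤ (Z1.card : ℤ) +
        ((Ico ((p : ℤ) ^ 2 - 17 * p) ((p : ℤ) ^ 2)).card : ℤ) := by
      rw [← Nat.cast_add]; exact Int.ofNat_le.2 h0
    rw [z1, Int.card_Ico, sub_sub_cancel, Int.toNat_of_nonneg (by positivity)] at h1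
    exact h1
  have z3 : ((Ico (0 : ℤ) (p ^ 2)).card : ℤ) = p ^ 2 := by
    simp only [Int.card_Ico, sub_zero]; exact Int.toNat_of_nonneg hl.le
  rw [card_univ, ZMod.card] at c1 c2
  have k0 : (S.card : ℤ) ≤ S1.card + S2.card + S3.card := by
    have := (card_le_card hsub).trans ((card_union_le _ _).trans
      (Nat.add_le_add_right (card_union_le _ _) _))
    exact_mod_cast this
  have k1 : (S1.card : ℤ) ≤ Z1.card * p := by exact_mod_cast c1
  have k2 : (S2.card : ℤ) ≤ Z2.card * p := by exact_mod_cast c2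
  have k3 : (S3.card : ℤ) ≤ (Ico (0 : ℤ) (p ^ 2)).card * Ys.card := by exact_mod_cast c3
  rw [z1] at k1
  rw [z3] at k3
  have k4 := mul_le_mul_of_nonneg_right z2 hp0.le
  have k5 := mul_le_mul_of_nonneg_left hYs hl.le
  nlinarith

end

end Pool.Agent.H.MP_1dc7bd_an
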