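import Pool.Agent.H.MP_1dc7bd_an.B

open Finset Filter

namespace Pool.Agent.H.MP_1dc7bd_an

theorem exP (J : ℕ) : ∃ p : ℕ, p.Prime ∧ 4 ^ (J + 4) < p ∧ p ≤ 2 * 4 ^ (J + 4) :=
  Nat.exists_prime_lt_and_le_two_mul _ (by positivity)

noncomputable def P (J : ℕ) : ℕ := (exP J).choose

instance (J : ℕ) : Fact (P J).Prime := ⟨(exP J).choose_spec.1⟩

theorem P_lo (J : ℕ) : (4 : ℤ) ^ (J + 4) < P J := by exact_mod_cast (exP J).choose_spec.2.1
theorem P_hi (J : ℕ) : (P J : ℤ) ≤ 2 * 4 ^ (J + 4) := by exact_mod_cast (exP J).choose_spec.2.2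

theorem P_mono : StrictMono P := strictMono_nat_of_lt_succ fun J => by
  have h1 := P_hi J
  have h2 := P_lo (J + 1)
  have h3 : (0 : ℤ) < 4 ^ (J + 4) := by positivity
  rw [show J + 1 + 4 = J + 4 + 1 by ring, pow_succ] at h2
  have : (P J : ℤ) < P (J + 1) := by linarith
  exact_mod_cast this

theorem P_sq (J : ℕ) : 16 * ((2 : ℤ) ^ (J + 2)) ^ 2 < P J := by
  have := P_lo J
  have e : (4 : ℤ) ^ (J + 4) = 16 * ((2 : ℤ) ^ (J + 2)) ^ 2 := by
    rw [show (4 : ℤ) = 2 ^ 2 by norm_num, ← pow_mul]; ring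
  linarith

theorem D4 (J : ℕ) : (4 : ℤ) ≤ 2 ^ (J + 2) := by
  rw [pow_add]; linarith [one_le_pow₀ (a := (2 : ℤ)) (n := J) (by norm_num)]

theorem exK (J : ℕ) : ∃ k : ℤ, (2 : ℤ) ^ (J + 2) ∣ 3 * k + 1 - 2 ^ (J + 1) := by
  obtain ⟨a, b, h⟩ : IsCoprime (3 : ℤ) (2 ^ (J + 2)) :=
    IsCoprime.pow_right ⟨1, -1, by norm_num⟩
  exact ⟨a * (2 ^ (J + 1) - 1), -b * (2 ^ (J + 1) - 1), by
    linear_combination (2 ^ (J + 1) - 1) * h⟩

noncomputable def kap (J : ℕ) : ℤ := (exK J).choose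

def lv (J : ℕ) (u : ℤ) : Prop := lev (P J) (2 ^ (J + 2)) (kap J) u

theorem lv_val {J : ℕ} {u : ℤ} (h : lv J u) :
    (2 : ℤ) ^ (J + 1) ∣ 3 * u + 1 ∧ ¬ (2 : ℤ) ^ (J + 2) ∣ 3 * u + 1 := by
  obtain ⟨c, hc⟩ := h.1.dvd
  obtain ⟨d, hd⟩ : (2 : ℤ) ^ (J + 2) ∣ 3 * kap J + 1 - 2 ^ (J + 1) := (exK J).choose_spec
  have e : 3 * u + 1 = 2 ^ (J + 1) * (1 + 2 * (d - 3 * c)) := by
    rw [pow_succ] at hc hd; linear_combination hd - 3 * hc
  refine ⟨⟨_, e⟩, fun ⟨f, hf⟩ => ?_⟩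
  rw [e, pow_succ _ (J + 1), mul_assoc] at hf
  have := mul_left_cancel₀ (by positivity) hf
  omega

theorem lv_odd {J : ℕ} {u : ℤ} (h : lv J u) : ¬ (2 : ℤ) ∣ u := fun h2 => by
  have := (dvd_pow_self (2 : ℤ) (Nat.succ_ne_zero J)).trans (lv_val h).1
  omega

theorem lv_uniq {i j : ℕ} {u : ℤ} (hi : lv i u) (hj : lv j u) : i = j := by
  rcases lt_trichotomy i j with h | h | h
  · exact absurd ((pow_dvd_pow _ (by omega)).trans (lv_val hj).1) (lv_val hi).2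
  · exact h
  · exact absurd ((pow_dvd_pow _ (by omega)).trans (lv_val hi).1) (lv_val hj).2

theorem lv_per {J : ℕ} (u M : ℤ) (h1 : (2 : ℤ) ^ (J + 2) ∣ M) (h2 : (P J : ℤ) ^ 3 ∣ M) :
    lv J (u + M) ↔ lv J u := by
  obtain ⟨c, rfl⟩ := h2
  have hl : ((P J : ℤ) ^ 2) ≠ 0 := (pow_pos ppos 2).ne'
  have e : u + (P J : ℤ) ^ 3 * c = u + (P J * c) * (P J : ℤ) ^ 2 := by ring
  have e2 : ∀ y : ℤ, w (P J) (y + P J * c) = w (P J) y := fun y => by simp [w, xi]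
  unfold lv lev
  refine and_congr ⟨fun h => ?_, fun h => ?_⟩ ?_
  · exact ((Int.modEq_iff_dvd.2 (by simpa using h1)).trans h)
  · exact ((Int.modEq_iff_dvd.2 (by simpa using h1)).symm.trans h)
  · rw [e, Int.add_mul_emod_self_right, Int.add_mul_ediv_right _ _ hl, e2]

def ga (Q : ℕ → Prop) (u : ℤ) : Prop := (2 : ℤ) ∣ u ∨ ∃ j, Q j ∧ lv j u

theorem ga_per (Q : ℕ → Prop) (K : ℕ) (u M : ℤ) (hu : ¬ (2 : ℤ) ^ (K + 2) ∣ 3 * u + 1)
    (h1 : (2 : ℤ) ^ (K + 2) ∣ M) (h2 : ∀ j ≤ K, Q j → (P j : ℤ) ^ 3 ∣ M) :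
    ga Q (u + M) ↔ ga Q u := by
  have hu' : ¬ (2 : ℤ) ^ (K + 2) ∣ 3 * (u + M) + 1 := fun h => hu (by
    have := dvd_sub h (h1.mul_left 3)
    rwa [show 3 * (u + M) + 1 - 3 * M = 3 * u + 1 by ring] at this)
  have hle : ∀ j v, ¬ (2 : ℤ) ^ (K + 2) ∣ 3 * v + 1 → lv j v → j ≤ K := fun j v hv h => by
    by_contra hj
    exact hv ((pow_dvd_pow _ (by omega)).trans (lv_val h).1)
  refine or_congr (dvd_add_left ((dvd_pow_self _ (Nat.succ_ne_zero _)).trans h1))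
    (exists_congr fun j => and_congr_right fun hq => ⟨fun h => ?_, fun h => ?_⟩)
  · have := hle j _ hu' h
    exact (lv_per u M ((pow_dvd_pow _ (by omega)).trans h1) (h2 j this hq)).1 h
  · have := hle j _ hu h
    exact (lv_per u M ((pow_dvd_pow _ (by omega)).trans h1) (h2 j this hq)).2 h

def a (u : ℤ) : Prop := ga (fun _ => True) u

noncomputable def N (K : ℕ) : ℕ := 2 ^ (K + 2) * ∏ j ∈ range (K + 1), P j ^ 3

theorem N_pos (K : ℕ) : 0 < N K :=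
  Nat.mul_pos (by positivity) (prod_pos fun j _ => pow_pos (Fact.out : (P j).Prime).pos 3)

theorem N_mono : StrictMono N := strictMono_nat_of_lt_succ fun K => by
  have h := N_pos K
  have h2 : 0 < P (K + 1) ^ 3 := pow_pos (Fact.out : (P (K + 1)).Prime).pos 3
  have e : N (K + 1) = N K * (2 * P (K + 1) ^ 3) := by
    unfold N; rw [prod_range_succ _ (K + 1)]; ring
  rw [e]; nlinarith

theorem N_two {k K : ℕ} (h : k ≤ K + 2) : (2 : ℤ) ^ k ∣ N K := by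
  unfold N; push_cast
  exact (pow_dvd_pow _ h).mul_right _

theorem a_per (K : ℕ) (u k : ℤ) (hu : ¬ (2 : ℤ) ^ (K + 2) ∣ 3 * u + 1) : a (u + k * N K) ↔ a u := by
  refine ga_per _ K u _ hu ((N_two le_rfl).mul_left k) fun j hj _ => Dvd.dvd.mul_left ?_ k
  unfold N; push_cast
  exact (dvd_prod_of_mem (fun j => (P j : ℤ) ^ 3) (mem_range.2 (by omega))).mul_left _

open Classical in
theorem resN {D : ℤ} (hD : 0 < D) (κ : ℤ) (M : ℕ) (hM : D ∣ M) :
    (((range M).filter fun u : ℕ => (u : ℤ) ≡ κ [ZMOD D]).card : ℝ) = M / D := by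
  obtain ⟨c, hc⟩ := hM
  have hc0 : 0 ≤ c := by
    by_contra h
    nlinarith [Int.natCast_nonneg M]
  have h := res hD κ 0 c hc0
  have h2 : (((range M).filter fun u : ℕ => (u : ℤ) ≡ κ [ZMOD D]).card : ℤ) = c := by
    rw [← h]
    unfold cnt
    congr 1
    refine card_bij (fun u _ => (u : ℤ)) (fun u hu => ?_) (fun a _ b _ h => by exact_mod_cast h)
      (fun v hv => ?_)
    · simp only [mem_filter, mem_range, mem_Ico] at hu ⊢
      refine ⟨⟨Int.natCast_nonneg _, ?_⟩, hu.2⟩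
      have : (u : ℤ) < M := by exact_mod_cast hu.1
      linarith
    · simp only [mem_filter, mem_Ico] at hv
      obtain ⟨u, rfl⟩ := Int.eq_ofNat_of_zero_le hv.1.1
      refine ⟨u, ?_, rfl⟩
      simp only [mem_filter, mem_range]
      refine ⟨?_, hv.2⟩
      have : (u : ℤ) < M := by linarith [hv.1.2]
      exact_mod_cast this
  have h3 : (M : ℝ) = D * c := by exact_mod_cast hc
  have h4 : (D : ℝ) ≠ 0 := by exact_mod_cast hD.ne'
  rw [h3, mul_div_cancel_left₀ _ h4]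
  exact_mod_cast h2

open Classical in
theorem hiN (K : ℕ) (i : ℤ) (M : ℕ) (hM : (2 : ℤ) ^ K ∣ M) :
    (((range M).filter fun u : ℕ => (2 : ℤ) ^ K ∣ 3 * (i + u) + 1).card : ℝ) = M / 2 ^ K := by
  obtain ⟨c, d, h⟩ : IsCoprime (3 : ℤ) (2 ^ K) := IsCoprime.pow_right ⟨1, -1, by norm_num⟩
  have := resN (D := 2 ^ K) (by positivity) (-c - i) M hM
  push_cast at this
  rw [← this]
  congr 2
  refine filter_congr fun u _ => ?_
  rw [Int.modEq_iff_dvd]
  constructor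
  · rintro ⟨e, he⟩
    exact ⟨-c * e - d * (i + u), by linear_combination -c * he + (i + u) * h⟩
  · rintro ⟨e, he⟩
    exact ⟨d - 3 * e, by linear_combination -3 * he - h⟩

def Ev (β n : ℕ) (u : ℤ) : Prop :=
  (2 : ℤ) ^ β ∣ u ∧ ∃ t : ℕ, t ≤ 2 * n ∧ (2 : ℤ) ^ β ∣ u + t ∧ cnt a u (u + t) = n

theorem exJ (β n : ℕ) (hn : P β ^ 2 ≤ n) : ∃ J, β ≤ J ∧ P J ^ 2 ≤ n ∧ n < P (J + 1) ^ 2 := by
  have h : ∃ j, n < P (β + j + 1) ^ 2 := ⟨n, by
    have := P_mono.le_apply (x := β + n + 1)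
    nlinarith⟩
  refine ⟨β + Nat.find h, by omega, ?_, Nat.find_spec h⟩
  rcases hf : Nat.find h with _ | j
  · exact hn
  · exact not_lt.1 (Nat.find_min h (by omega : j < Nat.find h))

open Classical in
theorem fiber (β n J K : ℕ) (hβ : β ≤ J) (h1 : P J ^ 2 ≤ n) (h2 : n < P (J + 1) ^ 2)
    (M : ℤ) (hM1 : (2 : ℤ) ^ (K + 2) ∣ M) (hM2 : ∀ j ≤ K, j ≠ J → (P j : ℤ) ^ 3 ∣ M)
    (hM3 : IsCoprime M (P J)) (u0 : ℤ)
    (hu : ∀ i : ℕ, i < 2 * n → ¬ (2 : ℤ) ^ (K + 2) ∣ 3 * (i + u0) + 1) :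
    (((range (P J ^ 3)).filter fun k : ℕ => Ev β n (u0 + k * M)).card : ℝ) ≤
      35 / 2 ^ β * P J ^ 3 := by
  have q1 := P_sq J
  have q2 := D4 J
  have q3 : (256 : ℤ) < P J := by nlinarith
  have h := prog (p := P J) (D := 2 ^ (J + 2)) (kap J) (by positivity) (by nlinarith)
    (fun h => by rw [h] at q3; norm_num at q3) (2 ^ β) n (by positivity) (by exact_mod_cast h1) (by
      have b1 := P_hi (J + 1)
      have b2 := P_lo J
      rw [show J + 1 + 4 = J + 4 + 1 by ring, pow_succ] at b1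
      have b3 : (n : ℤ) < (P (J + 1) : ℤ) ^ 2 := by exact_mod_cast h2
      have b4 : (P (J + 1) : ℤ) ^ 2 ≤ (8 * P J) ^ 2 :=
        pow_le_pow_left₀ (Int.natCast_nonneg _) (by linarith) 2
      nlinarith) (fun t => cnt (ga (· ≠ J)) u0 (u0 + t)) (fun t1 t2 a1 a2 => by
      rw [cnt_add _ (by linarith : u0 ≤ u0 + t1) (by linarith : u0 + t1 ≤ u0 + t2)]
      have r := res (D := 2) (by norm_num) 0 (u0 + t1) ((t2 - t1) / 2) (by omega)
      have r2 : cnt (fun u => u ≡ 0 [ZMOD 2]) (u0 + t1) (u0 + t1 + (t2 - t1) / 2 * 2) ≤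
          cnt (ga (· ≠ J)) (u0 + t1) (u0 + t2) :=
        cnt_mono fun u b1 b2 b3 => ⟨b1, by omega, Or.inl (Int.modEq_zero_iff_dvd.1 b3)⟩
      omega) u0 M hM3 ((range (P J ^ 3)).filter fun k : ℕ => Ev β n (u0 + k * M)) (fun k hk => by
      obtain ⟨k1, k2, t, k3, k4, k5⟩ := mem_filter.1 hk
      refine ⟨mem_range.1 k1, t, ?_, by exact_mod_cast k3, (dvd_add_right k2).1 k4, ?_⟩
      · rw [← k5]
        refine le_trans (cnt_mono (Q := fun u => u ≡ 0 [ZMOD 1]) fun u b1 b2 _ =>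
          ⟨b1, b2, Int.modEq_one⟩) ?_
        have := res one_pos 0 (u0 + k * M) t (Int.natCast_nonneg _)
        rw [mul_one] at this; exact this.le
      · rw [← k5]
        have e1 : cnt (ga (· ≠ J)) u0 (u0 + t) = cnt (ga (· ≠ J)) (u0 + k * M) (u0 + k * M + t) := by
          refine cnt_shift _ _ _ fun i i1 i2 => ?_
          obtain ⟨i, rfl⟩ := Int.eq_ofNat_of_zero_le i1
          rw [show u0 + k * M + i = u0 + i + k * M by ring]
          refine (ga_per _ K _ _ ?_ (hM1.mul_left _) fun j hj hq => (hM2 j hj hq).mul_left _).symm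
          rw [add_comm u0]; exact hu i (by omega)
        rw [e1, ← cnt_or (Q := lev (P J) (2 ^ (J + 2)) (kap J))]
        · congr 1
          funext u
          apply propext
          constructor
          · rintro ((h | ⟨j, -, h⟩) | h)
            exacts [Or.inl h, Or.inr ⟨j, trivial, h⟩, Or.inr ⟨J, trivial, h⟩]
          · rintro (h | ⟨j, -, h⟩)
            · exact Or.inl (Or.inl h)
            · by_cases hj : j = J
              · exact Or.inr (hj ▸ h)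
              · exact Or.inl (Or.inr ⟨j, hj, h⟩)
        · rintro u (h | ⟨j, hj, h⟩) h'
          · exact lv_odd h' h
          · exact hj (lv_uniq h h'))
  have g1 : (17 * (P J : ℤ) / 2 ^ β) * 2 ^ β ≤ 17 * P J := Int.ediv_mul_le _ (by positivity)
  have g2 : (2 : ℤ) ^ β ≤ 2 ^ (J + 2) := pow_le_pow_right₀ (by norm_num) (by omega)
  have g3 : (4 * 2 ^ (J + 2) + 20) * (2 : ℤ) ^ β ≤ P J := by nlinarith
  have g4 : (((range (P J ^ 3)).filter fun k : ℕ => Ev β n (u0 + k * M)).card : ℤ) * 2 ^ β ≤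
      35 * P J ^ 3 := by
    have g5 := mul_le_mul_of_nonneg_right h (by positivity : (0 : ℤ) ≤ 2 ^ β)
    have g6 := mul_le_mul_of_nonneg_left g1 (by positivity : (0 : ℤ) ≤ P J ^ 2)
    have g7 := mul_le_mul_of_nonneg_left g3 (by positivity : (0 : ℤ) ≤ P J ^ 2)
    nlinarith
  rw [div_mul_eq_mul_div, le_div_iff₀ (by positivity)]
  exact_mod_cast g4

open Classical in
theorem main (β n : ℕ) (hn : P β ^ 2 ≤ n) : ∀ᶠ K in atTop,
    (((range (N K)).filter fun u : ℕ => Ev β n u).card : ℝ) / N K ≤ 36 / (2 ^ β) ^ 2 := by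
  obtain ⟨J, hβ, h1, h2⟩ := exJ β n hn
  filter_upwards [eventually_ge_atTop J, eventually_ge_atTop (2 * n * (2 ^ β) ^ 2)] with K hJ hK
  let M : ℕ := 2 ^ (K + 2) * ∏ j ∈ (range (K + 1)).erase J, P j ^ 3
  have hM : N K = M * P J ^ 3 := by
    unfold N
    rw [← mul_prod_erase _ _ (mem_range.2 (by omega : J < K + 1))]; ring
  have hM0 : 0 < M := Nat.pos_of_mul_pos_right (hM ▸ N_pos K)
  have hM1 : (2 : ℤ) ^ (K + 2) ∣ M := by simp only [M]; push_cast; exact dvd_mul_right _ _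
  have hM2 : ∀ j ≤ K, j ≠ J → (P j : ℤ) ^ 3 ∣ M := fun j hj hne => by
    simp only [M]; push_cast
    exact (dvd_prod_of_mem (fun j => (P j : ℤ) ^ 3)
      (mem_erase.2 ⟨hne, mem_range.2 (by omega)⟩)).mul_left _
  have hM3 : IsCoprime (M : ℤ) (P J) := by
    rw [Nat.isCoprime_iff_coprime]
    refine Nat.Coprime.mul_left (Nat.Coprime.pow_left _ ((Nat.coprime_primes Nat.prime_two
      Fact.out).2 fun h => ?_)) (Nat.Coprime.prod_left fun j hj => Nat.Coprime.pow_left _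
      ((Nat.coprime_primes Fact.out Fact.out).2 fun h => (mem_erase.1 hj).1 (P_mono.injective h)))
    have q1 := P_sq J
    have q2 := D4 J
    rw [← h] at q1
    norm_num at q1
    nlinarith
  clear_value M
  have c1 : ((range (N K)).filter fun u : ℕ => Ev β n u).card ≤
      ∑ u0 ∈ range M, ((range (P J ^ 3)).filter fun k : ℕ => Ev β n (u0 + k * M)).card := by
    rw [← card_sigma]
    refine card_le_card_of_injOn (fun u => ⟨u % M, u / M⟩) (fun u hu => ?_) fun u _ v _ h => ?_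
    · obtain ⟨u1, u2⟩ := mem_filter.1 hu
      refine mem_coe.2 (mem_sigma.2 ⟨mem_range.2 (Nat.mod_lt _ hM0), mem_filter.2
        ⟨mem_range.2 (Nat.div_lt_of_lt_mul (hM ▸ mem_range.1 u1)), ?_⟩⟩)
      have : ((u % M : ℕ) : ℤ) + ((u / M : ℕ) : ℤ) * M = u := by
        exact_mod_cast Nat.mod_add_div' u M
      simp only
      rwa [this]
    · have e1 : u % M = v % M := congrArg Sigma.fst h
      have e2 : u / M = v / M := congrArg (fun q : (_ : ℕ) × ℕ => q.2) h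
      rw [← Nat.mod_add_div u M, ← Nat.mod_add_div v M, e1, e2]
  have c2 : ∀ u0 : ℕ, (((range (P J ^ 3)).filter fun k : ℕ => Ev β n (u0 + k * M)).card : ℝ) ≤
      (if (u0 : ℤ) ≡ 0 [ZMOD 2 ^ β] then 1 else 0) * (35 / 2 ^ β * P J ^ 3) +
      (∑ i ∈ range (2 * n), if (2 : ℤ) ^ (K + 2) ∣ 3 * ((i : ℤ) + u0) + 1 then (1 : ℝ) else 0) *
        P J ^ 3 := fun u0 => by
    have s0 : 0 ≤ ∑ i ∈ range (2 * n),
        if (2 : ℤ) ^ (K + 2) ∣ 3 * ((i : ℤ) + u0) + 1 then (1 : ℝ) else 0 :=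
      sum_nonneg fun i _ => by split_ifs <;> norm_num
    by_cases hb : (u0 : ℤ) ≡ 0 [ZMOD 2 ^ β]
    · rw [if_pos hb, one_mul]
      by_cases hu : ∀ i : ℕ, i < 2 * n → ¬ (2 : ℤ) ^ (K + 2) ∣ 3 * (i + u0) + 1
      · have := fiber β n J K hβ h1 h2 M hM1 hM2 hM3 u0 hu
        have : (0 : ℝ) ≤ (P J : ℝ) ^ 3 := by positivity
        nlinarith
      · push Not at hu
        obtain ⟨i, hi, hi2⟩ := hu
        have s1 := single_le_sum (f := fun i : ℕ =>
          if (2 : ℤ) ^ (K + 2) ∣ 3 * ((i : ℤ) + u0) + 1 then (1 : ℝ) else 0)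
          (fun i _ => by split_ifs <;> norm_num) (mem_range.2 hi)
        rw [if_pos hi2] at s1
        have s2 : (((range (P J ^ 3)).filter fun k : ℕ => Ev β n (u0 + k * M)).card : ℝ) ≤
            (P J : ℝ) ^ 3 := by
          exact_mod_cast (card_filter_le _ _).trans (card_range _).le
        have s3 : (0 : ℝ) ≤ 35 / 2 ^ β * P J ^ 3 := by positivity
        have : (0 : ℝ) ≤ (P J : ℝ) ^ 3 := by positivity
        nlinarith
    · rw [filter_eq_empty_iff.2 fun k _ h => hb (Int.modEq_zero_iff_dvd.2 ((dvd_add_left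
        (((pow_dvd_pow _ (by omega)).trans hM1).mul_left _)).1 h.1))]
      simp only [card_empty, Nat.cast_zero]
      positivity
  have c3 : (((range (N K)).filter fun u : ℕ => Ev β n u).card : ℝ) ≤
      M / 2 ^ β * (35 / 2 ^ β * P J ^ 3) + (2 * n * (M / 2 ^ (K + 2))) * P J ^ 3 := by
    refine le_trans (by exact_mod_cast c1) ((sum_le_sum fun u0 _ => c2 u0).trans (le_of_eq ?_))
    rw [sum_add_distrib, ← sum_mul, ← sum_mul, sum_boole, sum_comm,
      resN (by positivity) 0 M ((pow_dvd_pow _ (by omega)).trans hM1)]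
    simp only [sum_boole, fun i : ℕ => hiN (K + 2) i M hM1]
    simp
  have hN : (0 : ℝ) < N K := by exact_mod_cast N_pos K
  rw [div_le_iff₀ hN]
  refine c3.trans ?_
  have c4 : (2 * n * (2 ^ β) ^ 2 : ℝ) ≤ 2 ^ (K + 2) := by
    have : K ≤ 2 ^ (K + 2) := (Nat.lt_two_pow_self.le).trans (Nat.pow_le_pow_right (by norm_num) (by omega))
    exact_mod_cast hK.trans this
  have c5 : (2 * n / 2 ^ (K + 2) : ℝ) ≤ 1 / (2 ^ β) ^ 2 := by
    rw [div_le_div_iff₀ (by positivity) (by positivity)]; linarith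
  have c7 : (0 : ℝ) ≤ (M : ℝ) * (P J : ℝ) ^ 3 :=
    mul_nonneg (Nat.cast_nonneg _) (pow_nonneg (Nat.cast_nonneg _) _)
  have c6 := mul_le_mul_of_nonneg_right c5 c7
  rw [hM, Nat.cast_mul, Nat.cast_pow]
  have e1 : (M : ℝ) / 2 ^ β * (35 / 2 ^ β * P J ^ 3) = 35 / (2 ^ β) ^ 2 * (M * P J ^ 3) := by
    field_simp
  have e2 : (2 * n * ((M : ℝ) / 2 ^ (K + 2))) * P J ^ 3 = 2 * n / 2 ^ (K + 2) * (M * P J ^ 3) := by
    field_simp
  have e3 : (36 : ℝ) / (2 ^ β) ^ 2 = 35 / (2 ^ β) ^ 2 + 1 / (2 ^ β) ^ 2 := by ring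
  rw [e1, e2, e3, add_mul]
  linarith

end Pool.Agent.H.MP_1dc7bd_an
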