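import Pool.Agent.H.MP_1dc7bd_an.A
import Pool.Agent.H.MP_1dc7bd_an.C

open Filter Topology Set MeasureTheory
open scoped symmDiff

namespace Pool.Agent.H.MP_1dc7bd_an

open Classical in
noncomputable def z : Y := fun c => if c.2 = 0 then decide (a c.1) else decide ((2 : ℤ) ^ c.2 ∣ c.1)

theorem z0 (i : ℤ) : z (i, 0) = true ↔ a i := by simp [z]

theorem z1 (i : ℤ) {j : ℕ} (hj : j ≠ 0) : z (i, j) = true ↔ (2 : ℤ) ^ j ∣ i := by simp [z, hj]

theorem hper (c : ℤ × ℕ) : ∃ p : ℕ, 0 < p ∧ ∀ k : ℤ, sh (k * p) z c = z c := by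
  obtain ⟨i, j⟩ := c
  rcases eq_or_ne j 0 with rfl | hj
  · refine ⟨N (3 * i + 1).natAbs, N_pos _, fun k => ?_⟩
    rw [Bool.eq_iff_iff]
    simp only [sh, z0]
    refine a_per _ _ _ fun h => ?_
    have h1 := Int.le_of_dvd (abs_pos.2 (by omega)) ((dvd_abs _ _).2 h)
    have h2 : (3 * i + 1).natAbs < 2 ^ ((3 * i + 1).natAbs + 2) :=
      Nat.lt_two_pow_self.trans_le (Nat.pow_le_pow_right (by norm_num) (by omega))
    have h3 : (((3 * i + 1).natAbs : ℕ) : ℤ) < 2 ^ ((3 * i + 1).natAbs + 2) := by exact_mod_cast h2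
    rw [Int.natCast_natAbs] at h3
    linarith
  · refine ⟨2 ^ j, by positivity, fun k => ?_⟩
    rw [Bool.eq_iff_iff]
    simp only [sh, z1 _ hj]
    push_cast
    exact dvd_add_left (dvd_mul_left _ _)

theorem hap (p : ℕ) (hp : 0 < p) : sh p z ≠ z := fun h => by
  have h1 := congrFun h (0, p)
  rw [Bool.eq_iff_iff] at h1
  simp only [sh, z1 _ hp.ne', zero_add, dvd_zero, iff_true] at h1
  have h2 := Int.le_of_dvd (by exact_mod_cast hp) h1
  have h3 : (p : ℤ) < 2 ^ p := by exact_mod_cast Nat.lt_two_pow_self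
  linarith

def co (j : ℕ) : Set (X z) := {x | x.1 (0, j) = true}

theorem co_clopen (j : ℕ) : IsClopen (co j) :=
  clopen_of_window z {(0, j)} _ fun _ _ h hx => (h _ (Finset.mem_singleton_self _)).trans hx

theorem co_sub {j : ℕ} (hj : j ≠ 0) : co j ⊆ co 0 := fun x hx => by
  obtain ⟨n, hn⟩ := approx z x {(0, j), (0, 0)}
  have h1 := (hn (0, j) (by simp)).trans hx
  change x.1 (0, 0) = true
  rw [← hn (0, 0) (by simp)]
  simp only [sh, z1 _ hj, z0] at h1 ⊢
  exact Or.inl ((dvd_pow_self _ hj).trans h1)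

theorem two_step (x : X z) : T z x ∈ co 0 ∨ (T z)^[2] x ∈ co 0 := by
  obtain ⟨n, hn⟩ := approx z x {(1, 0), (2, 0)}
  have h1 : T z x ∈ co 0 ↔ a (1 + n) := by
    rw [← z0]; change x.1 (0 + 1, 0) = true ↔ _
    rw [zero_add, ← hn (1, 0) (by simp)]; rfl
  have h2 : (T z)^[2] x ∈ co 0 ↔ a (2 + n) := by
    rw [← z0]; change ((T z)^[2] x).1 (0, 0) = true ↔ _
    rw [T_iter]; change x.1 (0 + 2, 0) = true ↔ _
    rw [zero_add, ← hn (2, 0) (by simp)]; rfl
  rw [h1, h2]
  rcases Int.emod_two_eq_zero_or_one n with h | h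
  · exact Or.inr (Or.inl (by omega))
  · exact Or.inl (Or.inl (by omega))

open Classical in
noncomputable def S (x : X z) : X z := if T z x ∈ co 0 then T z x else (T z)^[2] x

theorem S_ret (x : X z) : ∃ r : ℕ, 0 < r ∧ r ≤ 2 ∧ S x = (T z)^[r] x ∧ (T z)^[r] x ∈ co 0 ∧
    ∀ j : ℕ, 0 < j → j < r → (T z)^[j] x ∉ co 0 := by
  by_cases h : T z x ∈ co 0
  · exact ⟨1, one_pos, by norm_num, if_pos h, h, fun j h1 h2 => by omega⟩
  · refine ⟨2, two_pos, le_rfl, if_neg h, (two_step x).resolve_left h, fun j h1 h2 => ?_⟩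
    obtain rfl : j = 1 := by omega
    exact h

open Classical in
noncomputable def vis (t : ℕ) (x : X z) : ℕ :=
  ((Finset.range t).filter fun i => (T z)^[i] x ∈ co 0).card

theorem S_iter (x : X z) (hx : x ∈ co 0) (n : ℕ) :
    ∃ t ≤ 2 * n, S^[n] x = (T z)^[t] x ∧ (T z)^[t] x ∈ co 0 ∧ vis t x = n := by
  classical
  induction n with
  | zero => exact ⟨0, le_rfl, rfl, hx, by simp [vis]⟩
  | succ n ih =>
    obtain ⟨t, h1, h2, h3, h4⟩ := ih
    obtain ⟨r, r1, r2, r3, r4, r5⟩ := S_ret ((T z)^[t] x)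
    refine ⟨r + t, by omega, ?_, ?_, ?_⟩
    · rw [Function.iterate_succ_apply', h2, r3, Function.iterate_add_apply]
    · rwa [Function.iterate_add_apply]
    · unfold vis at h4 ⊢
      rcases (by omega : r = 1 ∨ r = 2) with rfl | rfl
      · rw [add_comm 1, Finset.range_add_one, Finset.filter_insert, if_pos h3,
          Finset.card_insert_of_notMem (by simp), h4]
      · have h5 := r5 1 one_pos (by norm_num)
        rw [← Function.iterate_add_apply, add_comm 1] at h5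
        rw [add_comm 2, Finset.range_add_one, Finset.filter_insert, if_neg h5, Finset.range_add_one,
          Finset.filter_insert, if_pos h3, Finset.card_insert_of_notMem (by simp), h4]

def En (β n : ℕ) : Set (X z) :=
  {x | x ∈ co β ∧ ∃ t ≤ 2 * n, (T z)^[t] x ∈ co β ∧ vis t x = n}

theorem mem_co (j t : ℕ) (x : X z) : (T z)^[t] x ∈ co j ↔ x.1 (t, j) = true := by
  change ((T z)^[t] x).1 (0, j) = true ↔ _
  rw [T_iter]; simp [sh]

theorem En_clopen (β n : ℕ) : IsClopen (En β n) := by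
  classical
  refine clopen_of_window z ((Finset.range (2 * n + 1) ×ˢ {0, β}).image
    fun q : ℕ × ℕ => ((q.1 : ℤ), q.2)) _ fun x y h ⟨h1, t, h2, h3, h4⟩ => ?_
  have k : ∀ i ≤ 2 * n, ∀ j ∈ ({0, β} : Finset ℕ), ((T z)^[i] y ∈ co j ↔ (T z)^[i] x ∈ co j) :=
    fun i hi j hj => by
      rw [mem_co, mem_co, h _ (Finset.mem_image.2 ⟨(i, j), Finset.mem_product.2
        ⟨Finset.mem_range.2 (by omega), hj⟩, rfl⟩)]
  refine ⟨(k 0 (by omega) β (by simp)).2 h1, t, h2, (k t h2 β (by simp)).2 h3, ?_⟩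
  rw [← h4]
  unfold vis
  congr 1
  exact Finset.filter_congr fun i hi => k i (by have := Finset.mem_range.1 hi; omega) 0 (by simp)

theorem En_orb {β : ℕ} (hβ : β ≠ 0) (n : ℕ) (u : ℤ) (h : orb z u ∈ En β n) : Ev β n u := by
  classical
  obtain ⟨h1, t, h2, h3, h4⟩ := h
  have k : ∀ (i j : ℕ), (T z)^[i] (orb z u) ∈ co j ↔ z (u + i, j) = true := fun i j => by
    rw [mem_co]; simp [orb, sh, add_comm]
  refine ⟨?_, t, h2, (z1 _ hβ).1 ((k t β).1 h3), ?_⟩
  · have := (z1 _ hβ).1 ((k 0 β).1 h1)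
    simpa using this
  · rw [← h4]
    unfold cnt vis
    congr 1
    symm
    refine Finset.card_bij (fun i _ => u + (i : ℤ)) (fun i hi => ?_)
      (fun a _ b _ h => by omega) (fun v hv => ?_)
    · simp only [Finset.mem_filter, Finset.mem_range, Finset.mem_Ico, k, z0] at hi ⊢
      exact ⟨⟨by omega, by omega⟩, hi.2⟩
    · simp only [Finset.mem_filter, Finset.mem_Ico] at hv
      obtain ⟨i, hi⟩ := Int.eq_ofNat_of_zero_le (sub_nonneg.2 hv.1.1)
      obtain rfl : v = u + i := by omega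
      refine ⟨i, ?_, rfl⟩
      simp only [Finset.mem_filter, Finset.mem_range, k, z0]
      exact ⟨by omega, hv.2⟩

theorem all : ∃ μ : Measure (X z), IsProbabilityMeasure μ ∧ MeasurePreserving (T z) μ μ ∧
    (∀ B, MeasurableSet B → Tendsto (fun k => μ (((T z)^[N k] ⁻¹' B) ∆ B)) atTop (𝓝 0)) ∧
    ∀ β : ℕ, β ≠ 0 → μ.real (co β) = 1 / 2 ^ β ∧
      ∀ n, P β ^ 2 ≤ n → μ.real (co β ∩ S^[n] ⁻¹' co β) ≤ 36 / (2 ^ β) ^ 2 := by
  classical
  obtain ⟨μ, h1, h2, U, hU, hU2, h3⟩ := meas z N N_pos N_mono.tendsto_atTop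
  have hN : ∀ K, (0 : ℝ) < N K := fun K => by exact_mod_cast N_pos K
  refine ⟨μ, h1, h2, rigid z μ h2 N fun c => ?_, fun β hβ => ⟨?_, fun n hn => ?_⟩⟩
  · obtain ⟨i, j⟩ := c
    have hcl : ∀ k, IsClopen {x : X z | ((T z)^[N k] x).1 (i, j) ≠ x.1 (i, j)} := fun k =>
      clopen_of_window z {(i + N k, j), (i, j)} _ fun x y h hx => by
        simp only [mem_ofPred_eq, T_iter, sh] at hx ⊢
        rwa [h _ (by simp), h _ (by simp)]
    have hb : ∀ k, j ≤ k → μ.real {x : X z | ((T z)^[N k] x).1 (i, j) ≠ x.1 (i, j)} ≤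
        1 / 2 ^ (k + 2) := fun k hk => by
      refine le_of_tendsto (h3 _ (hcl k)) (hU2 ?_)
      filter_upwards [eventually_ge_atTop k] with K hK
      rw [fr, div_le_iff₀ (hN K), one_div_mul_eq_div, ← hiN (k + 2) i (N K) (N_two (by omega))]
      refine Nat.cast_le.2 (Finset.card_le_card fun u hu => ?_)
      simp only [Finset.mem_filter, mem_ofPred_eq, T_iter, sh, orb] at hu ⊢
      refine ⟨hu.1, by_contra fun h => hu.2 ?_⟩
      rw [Bool.eq_iff_iff, add_right_comm]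
      rcases eq_or_ne j 0 with rfl | hj
      · rw [z0, z0]
        have := a_per k (i + u) 1 h
        rwa [one_mul] at this
      · rw [z1 _ hj, z1 _ hj]
        exact dvd_add_left (N_two (by omega))
    rw [← ENNReal.tendsto_toReal_zero_iff]
    have l1 : Tendsto (fun k : ℕ => (1 / 2 : ℝ) ^ (k + 2)) atTop (𝓝 0) :=
      (tendsto_pow_atTop_nhds_zero_of_lt_one (by norm_num) (by norm_num)).comp
        (tendsto_add_atTop_nat 2)
    refine squeeze_zero' (Eventually.of_forall fun _ => ENNReal.toReal_nonneg) ?_ l1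
    filter_upwards [eventually_ge_atTop j] with k hk
    rw [one_div_pow]; exact hb k hk
  · refine tendsto_nhds_unique (h3 _ (co_clopen β)) (tendsto_const_nhds.congr' (hU2 ?_))
    filter_upwards [eventually_ge_atTop β] with K hK
    have := resN (D := 2 ^ β) (by positivity) 0 (N K) (N_two (by omega))
    push_cast at this
    rw [fr, eq_div_iff (hN K).ne', one_div_mul_eq_div, ← this]
    congr 2
    refine Finset.filter_congr fun u _ => ?_
    rw [Int.modEq_zero_iff_dvd, ← z1 _ hβ]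
    simp [co, orb, sh]
  · refine le_trans (measureReal_mono (s₂ := En β n) fun x hx => ?_) ?_
    · obtain ⟨t, t1, t2, -, t4⟩ := S_iter x (co_sub hβ hx.1) n
      exact ⟨hx.1, t, t1, t2 ▸ hx.2, t4⟩
    · refine le_of_tendsto (h3 _ (En_clopen β n)) (hU2 ?_)
      filter_upwards [main β n hn] with K hK
      refine le_trans (div_le_div_of_nonneg_right (Nat.cast_le.2 (Finset.card_le_card
        fun u hu => ?_)) (hN K).le) hK
      simp only [Finset.mem_filter] at hu ⊢
      exact ⟨hu.1, En_orb hβ n u hu.2⟩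

end Pool.Agent.H.MP_1dc7bd_an
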